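import Pool.Agent.Helper79.GL4.GoalsB

/-!
# GL4: the proposition `CST`, for MP_27a5f8_al (helper79)
-/

namespace Pool.Agent.Helper15.GL4CST

open Module Submodule

theorem exPt {F W : Type} [Field F] [AddCommGroup W] [Module F W] [FiniteDimensional F W]
    (h : 1 ≤ finrank F W) : ∃ x : Submodule F W, GL4.Pt x := by
  have : 0 < finrank F W := h
  haveI : Nontrivial W := Module.finrank_pos_iff.mp this
  obtain ⟨v, hv⟩ := exists_ne (0 : W)
  exact ⟨Submodule.span F {v}, finrank_span_singleton hv⟩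

/-- the comparison for a conjugating isomorphism -/
theorem comp (h1 : GL4.CANB) (h2 : GL4.NAT) {F : Type} [Field F] [Finite F] {W W' : Type}
    [AddCommGroup W] [Module F W] [AddCommGroup W'] [Module F W'] [FiniteDimensional F W]
    [FiniteDimensional F W'] (φ : W ≃ₗ[F] W') (G : Subgroup (W ≃ₗ[F] W))
    (G' : Subgroup (W' ≃ₗ[F] W')) (hc : GL4.Conj φ G G') (hW : 1 ≤ finrank F W)
    (c c' : ℕ) (B C B' C') (hB : GL4.BC G c B C) (hB' : GL4.BC G' c' B' C') : c = c' := by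
  obtain ⟨x, hx⟩ := exPt hW
  have hx' : GL4.Pt (x.map (φ : W →ₗ[F] W')) := by
    unfold GL4.Pt
    rw [LinearEquiv.finrank_map_eq]
    exact hx
  have e1 := (h1 F W G c B C hB).1 x hx
  have e2 := (h1 F W' G' c' B' C' hB').1 _ hx'
  have e3 := (h2 F W W' φ G G' hc x).1
  rw [e2, e1] at e3
  have d1 := hB.dimB x hx
  have d2 := hB'.dimB _ hx'
  rw [e3, LinearEquiv.finrank_map_eq] at d2
  have d3 : finrank F W = finrank F W' := LinearEquiv.finrank_eq φ
  omega

theorem cst (h1 : GL4.CANB) (h2 : GL4.NAT) (h3 : GL4.LFT) : GL4.CST := by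
  intro F _ _ V _ _ _ K hn hP hH
  have hD : GL4.Natl F (fun W _ _ _ x => x) := by
    intro W W' _ _ _ _ φ G G' _ x
    rfl
  constructor
  · intro P P' c c' B C B' C' hPP hPP' hB hB'
    obtain ⟨k, hk, hkP⟩ := hP P P' hPP hPP'
    obtain ⟨φ, _, hc⟩ := (h3 F _ hD V K k hk).2.1 P P' hkP
    refine comp h1 h2 φ _ _ hc ?_ c c' B C B' C' hB hB'
    have := Submodule.finrank_quotient_add_finrank P
    unfold GL4.Pt at hPP
    omega
  · intro H H' c c' B C B' C' hHH hHH' hB hB'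
    obtain ⟨k, hk, hkH⟩ := hH H H' hHH hHH'
    obtain ⟨φ, _, hc⟩ := (h3 F _ hD V K k hk).2.2 H H' hkH
    refine comp h1 h2 φ _ _ hc ?_ c c' B C B' C' hB hB'
    unfold GL4.Hy at hHH
    omega

end Pool.Agent.Helper15.GL4CST
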