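import Pool.Agent.Helper79.GL4.GoalsR

/-!
# GL4: the proposition `ML` (monomial representations), for MP_27a5f8_al (helper79)
-/

namespace Pool.Agent.Helper15.GL4ML

open Module Submodule
open scoped ComplexOrder Classical

section
variable {G T X : Type} [Group G] [Group T] [MulAction G X] [MulAction T X] [SMulCommClass G T X]

/-- the space of the monomial representation -/
def E (X : Type) [MulAction T X] (lam : T →* ℂˣ) : Submodule ℂ (X → ℂ) where
  carrier := {f | ∀ (t : T) (x : X), f (t • x) = (lam t : ℂ) * f x}
  zero_mem' := fun t x => by simp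
  add_mem' := by
    intro a b ha hb t x
    simp only [Pi.add_apply]
    rw [ha t x, hb t x]; ring
  smul_mem' := by
    intro c a ha t x
    simp only [Pi.smul_apply, smul_eq_mul]
    rw [ha t x]; ring

/-- the action of `G` on `E` -/
noncomputable def rho (lam : T →* ℂˣ) : Representation ℂ G (E X lam) where
  toFun g :=
    { toFun := fun f => ⟨fun x => f.1 (g⁻¹ • x), fun t x => by
        show f.1 (g⁻¹ • t • x) = _
        rw [smul_comm]; exact f.2 t _⟩
      map_add' := fun f f' => rfl
      map_smul' := fun c f => rfl }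
  map_one' := by
    ext f x
    show f.1 ((1 : G)⁻¹ • x) = f.1 x
    simp
  map_mul' g h := by
    ext f x
    show f.1 ((g * h)⁻¹ • x) = f.1 (h⁻¹ • g⁻¹ • x)
    rw [mul_inv_rev, mul_smul]

theorem rho_apply (lam : T →* ℂˣ) (g : G) (f : E X lam) (x : X) :
    ((rho lam g f : E X lam) : X → ℂ) x = f.1 (g⁻¹ • x) := rfl

/-- the coefficient function -/
noncomputable def cf (lam : T →* ℂˣ) (x y : X) : ℂ :=
  if h : ∃ t : T, t • x = y then (lam h.choose : ℂ) else 0

theorem cf_smul (lam : T →* ℂˣ) (free : ∀ (t : T) (x : X), t • x = x → t = 1) (x : X) (t : T) :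
    cf lam x (t • x) = lam t := by
  have h : ∃ s : T, s • x = t • x := ⟨t, rfl⟩
  unfold cf
  rw [dif_pos h]
  have h1 := h.choose_spec
  have h2 : h.choose = t := by
    have h3 : (t⁻¹ * h.choose) • x = x := by rw [mul_smul, h1, inv_smul_smul]
    have h4 := free _ _ h3
    exact (inv_mul_eq_one.mp h4).symm
  rw [h2]

theorem cf_zero (lam : T →* ℂˣ) (x y : X) (h : ¬ ∃ t : T, t • x = y) : cf lam x y = 0 := by
  unfold cf
  rw [dif_neg h]

theorem cf_self (lam : T →* ℂˣ) (free : ∀ (t : T) (x : X), t • x = x → t = 1) (x : X) :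
    cf lam x x = 1 := by
  have := cf_smul lam free x 1
  rw [one_smul] at this
  rw [this]; simp

/-- the delta function -/
noncomputable def del (lam : T →* ℂˣ) (free : ∀ (t : T) (x : X), t • x = x → t = 1) (x : X) :
    E X lam := ⟨cf lam x, by
  intro t y
  by_cases h : ∃ s : T, s • x = y
  · obtain ⟨s, rfl⟩ := h
    rw [← mul_smul, cf_smul lam free, cf_smul lam free]
    simp
  · rw [cf_zero lam x y h, cf_zero, mul_zero]
    rintro ⟨s, hs⟩
    exact h ⟨t⁻¹ * s, by rw [mul_smul, hs, inv_smul_smul]⟩⟩

theorem del_apply (lam : T →* ℂˣ) (free : ∀ (t : T) (x : X), t • x = x → t = 1) (x y : X) :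
    (del lam free x).1 y = cf lam x y := rfl

/-- if `g x = s x` then `g⁻¹ x = s⁻¹ x` -/
theorem inv_move {g : G} {s : T} {x : X} (h : g • x = s • x) : g⁻¹ • x = s⁻¹ • x := by
  have h1 : s • g⁻¹ • x = x := by
    rw [← smul_comm g⁻¹ s x, ← h, inv_smul_smul]
  rw [← h1]
  rw [inv_smul_smul]
  rw [h1]

theorem cf_inv (lam : T →* ℂˣ) (free : ∀ (t : T) (x : X), t • x = x → t = 1) {g : G} {s : T} {x : X}
    (h : g • x = s • x) (z : X) : cf lam x (g⁻¹ • z) = ((lam s : ℂ))⁻¹ * cf lam x z := by
  by_cases hz : ∃ t : T, t • x = z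
  · obtain ⟨t, rfl⟩ := hz
    rw [smul_comm g⁻¹ t x, inv_move h, ← mul_smul, cf_smul lam free, cf_smul lam free]
    simp [mul_comm]
  · rw [cf_zero lam x z hz, cf_zero, mul_zero]
    rintro ⟨t, ht⟩
    apply hz
    refine ⟨t * s, ?_⟩
    have : z = g • t • x := by rw [ht, smul_inv_smul]
    rw [this, smul_comm g t x, h, mul_smul]

variable [Finite G]

/-- the averaging operator -/
noncomputable def av (lam : T →* ℂˣ) (x : X) (f : E X lam) : E X lam :=
  letI := Fintype.ofFinite G
  ∑ b : G, cf lam x (b • x) • (rho lam b f : E X lam)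

theorem av_apply (lam : T →* ℂˣ) (x : X) (f : E X lam) (y : X) :
    letI := Fintype.ofFinite G
    (av (G := G) lam x f).1 y = ∑ b : G, cf lam x (b • x) * f.1 (b⁻¹ • y) := by
  letI := Fintype.ofFinite G
  show (av (G := G) lam x f).1 y = ∑ b : G, cf lam x (b • x) * f.1 (b⁻¹ • y)
  unfold av
  rw [Submodule.coe_sum, Finset.sum_apply]
  rfl

theorem av_self (lam : T →* ℂˣ) (free : ∀ (t : T) (x : X), t • x = x → t = 1) (x : X)
    (f : E X lam) : ∃ n : ℕ, 0 < n ∧ (av (G := G) lam x f).1 x = n * f.1 x := by
  letI := Fintype.ofFinite G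
  refine ⟨(Finset.univ.filter (fun b : G => ∃ t : T, t • x = b • x)).card, ?_, ?_⟩
  · apply Finset.card_pos.mpr
    exact ⟨1, by simp only [Finset.mem_filter, Finset.mem_univ, true_and]; exact ⟨1, by simp⟩⟩
  · rw [av_apply]
    have this : ∀ b : G, cf lam x (b • x) * f.1 (b⁻¹ • x)
        = if (∃ t : T, t • x = b • x) then f.1 x else 0 := by
      intro b
      split_ifs with hb
      · obtain ⟨t, ht⟩ := hb
        rw [← ht, cf_smul lam free, inv_move ht.symm, f.2]
        rw [map_inv]
        rw [← mul_assoc]
        simp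
      · rw [cf_zero lam x _ hb, zero_mul]
    rw [Finset.sum_congr rfl (fun b _ => this b), ← Finset.sum_filter, Finset.sum_const,
      nsmul_eq_mul]

theorem av_other (lam : T →* ℂˣ) (free : ∀ (t : T) (x : X), t • x = x → t = 1) (x y : X)
    (f : E X lam) (g : G) (s t : T) (h1 : g • x = s • x) (h2 : g • y = t • y)
    (h3 : lam s ≠ lam t) : (av (G := G) lam x f).1 y = 0 := by
  letI := Fintype.ofFinite G
  have ha : (av (G := G) lam x f).1 (g⁻¹ • y) = ((lam s : ℂ))⁻¹ * (av (G := G) lam x f).1 y := by
    rw [av_apply, av_apply, Finset.mul_sum]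
    rw [← Equiv.sum_comp (Equiv.mulLeft g⁻¹)]
    apply Finset.sum_congr rfl
    intro b _
    simp only [Equiv.coe_mulLeft]
    rw [mul_smul, cf_inv lam free h1, mul_assoc]
    congr 2
    rw [mul_inv_rev, inv_inv, mul_smul, smul_inv_smul]
  have hb : (av (G := G) lam x f).1 (g⁻¹ • y) = ((lam t : ℂ))⁻¹ * (av (G := G) lam x f).1 y := by
    rw [inv_move h2, (av (G := G) lam x f).2]
    simp
  rw [ha] at hb
  have hc : (((lam s : ℂ))⁻¹ - ((lam t : ℂ))⁻¹) * (av (G := G) lam x f).1 y = 0 := by
    rw [sub_mul, hb, sub_self]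
  rcases mul_eq_zero.mp hc with h | h
  · exfalso
    apply h3
    have := inv_injective (sub_eq_zero.mp h)
    exact Units.ext this
  · exact h

theorem av_eq (lam : T →* ℂˣ) (free : ∀ (t : T) (x : X), t • x = x → t = 1)
    (mac : ∀ x y : X, (¬ ∃ t : T, t • x = y) →
      ∃ (g : G) (s t : T), g • x = s • x ∧ g • y = t • y ∧ lam s ≠ lam t) (x : X)
    (f : E X lam) : ∃ n : ℕ, 0 < n ∧ av (G := G) lam x f = ((n : ℂ) * f.1 x) • del lam free x := by
  obtain ⟨n, hn, h⟩ := av_self (G := G) lam free x f
  refine ⟨n, hn, ?_⟩
  apply Subtype.ext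
  funext y
  show (av (G := G) lam x f).1 y = ((n : ℂ) * f.1 x) * cf lam x y
  by_cases hy : ∃ t : T, t • x = y
  · obtain ⟨t, rfl⟩ := hy
    rw [(av (G := G) lam x f).2, h, cf_smul lam free]
    ring
  · obtain ⟨g, s, t, h1, h2, h3⟩ := mac x y hy
    rw [av_other lam free x y f g s t h1 h2 h3, cf_zero lam x y hy, mul_zero]

end

section
variable {G T X : Type} [Group G] [Group T] [MulAction G X] [MulAction T X] [SMulCommClass G T X]
  [Finite G] [Finite X] [Nonempty X]

theorem del_ne (lam : T →* ℂˣ) (free : ∀ (t : T) (x : X), t • x = x → t = 1) (x : X) :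
    del lam free x ≠ 0 := by
  intro h
  have h1 : (del lam free x).1 x = 0 := by rw [h]; rfl
  rw [del_apply, cf_self lam free] at h1
  exact one_ne_zero h1

theorem irr (lam : T →* ℂˣ) (free : ∀ (t : T) (x : X), t • x = x → t = 1)
    (tr : ∀ x y : X, ∃ (g : G) (t : T), g • x = t • y)
    (mac : ∀ x y : X, (¬ ∃ t : T, t • x = y) →
      ∃ (g : G) (s t : T), g • x = s • x ∧ g • y = t • y ∧ lam s ≠ lam t) :
    (rho (G := G) (X := X) lam).IsIrreducible := by
  letI := Fintype.ofFinite G
  letI := Fintype.ofFinite X
  obtain ⟨x₀⟩ := (inferInstance : Nonempty X)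
  refine { exists_pair_ne := ⟨⊥, ⊤, ?_⟩, eq_bot_or_eq_top := ?_ }
  · intro h
    have h1 : (del lam free x₀) ∈ (⊤ : Subrepresentation (rho (G := G) (X := X) lam)).toSubmodule :=
      Submodule.mem_top
    rw [← h] at h1
    exact del_ne lam free x₀ ((Submodule.mem_bot ℂ).mp h1)
  · intro U
    by_cases hU : U.toSubmodule = ⊥
    · left
      exact Subrepresentation.toSubmodule_injective hU
    · right
      obtain ⟨f, hf, hf0⟩ := (Submodule.ne_bot_iff _).mp hU
      have : ∃ y, f.1 y ≠ 0 := by
        by_contra hc
        push Not at hc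
        exact hf0 (Subtype.ext (funext hc))
      obtain ⟨y, hy⟩ := this
      -- all delta functions
      have key : ∀ x : X, del lam free x ∈ U.toSubmodule := by
        intro x
        obtain ⟨g, t, hg⟩ := tr y x
        have h1 : rho lam g f ∈ U.toSubmodule := U.apply_mem_toSubmodule g hf
        have h2 : av (G := G) lam x (rho lam g f) ∈ U.toSubmodule := by
          unfold av
          apply Submodule.sum_mem
          intro b _
          apply Submodule.smul_mem
          exact U.apply_mem_toSubmodule b h1
        obtain ⟨n, hn, h3⟩ := av_eq (G := G) lam free mac x (rho lam g f)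
        rw [h3] at h2
        have h4 : (rho lam g f : E X lam).1 x ≠ 0 := by
          show f.1 (g⁻¹ • x) ≠ 0
          have h5 : g⁻¹ • x = t⁻¹ • y := by
            have h6 : t • g⁻¹ • x = y := by
              rw [← smul_comm g⁻¹ t x, ← hg, inv_smul_smul]
            rw [← h6, inv_smul_smul]
          rw [h5, f.2]
          exact mul_ne_zero (Units.ne_zero _) hy
        have h7 : ((n : ℂ) * (rho lam g f : E X lam).1 x) ≠ 0 :=
          mul_ne_zero (by exact_mod_cast hn.ne') h4
        exact (Submodule.smul_mem_iff _ h7).mp h2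
      apply Subrepresentation.toSubmodule_injective
      show U.toSubmodule = ⊤
      rw [eq_top_iff]
      intro f _
      -- f is the sum over x of f(x) / |T-orbit count| ...
      have hs : ∑ x : X, f.1 x • del lam free x ∈ U.toSubmodule :=
        Submodule.sum_mem _ (fun x _ => Submodule.smul_mem _ _ (key x))
      -- evaluate
      have hev : ∀ y : X, (∑ x : X, f.1 x • del lam free x : E X lam).1 y
          = (Nat.card {x : X // ∃ t : T, t • x = y} : ℂ) * f.1 y := by
        intro y
        rw [Submodule.coe_sum, Finset.sum_apply]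
        have : ∀ x : X, ((f.1 x • del lam free x : E X lam) : X → ℂ) y
            = if (∃ t : T, t • x = y) then f.1 y else 0 := by
          intro x
          show f.1 x * cf lam x y = _
          split_ifs with h
          · obtain ⟨t, rfl⟩ := h
            rw [cf_smul lam free, f.2]; ring
          · rw [cf_zero lam x y h, mul_zero]
        rw [Finset.sum_congr rfl (fun x _ => this x)]
        rw [← Finset.sum_filter, Finset.sum_const, nsmul_eq_mul]
        congr 2
        rw [Nat.card_eq_fintype_card, Fintype.card_subtype]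
      -- all orbits have the same size
      have hsz : ∀ y : X, Nat.card {x : X // ∃ t : T, t • x = y} = Nat.card T := by
        intro y
        symm
        refine Nat.card_congr (Equiv.ofBijective (fun t : T => ⟨t⁻¹ • y, t, smul_inv_smul _ _⟩) ?_)
        constructor
        · intro a b hab
          simp only [Subtype.mk.injEq] at hab
          have h1 : (a * b⁻¹) • y = y := by
            rw [mul_smul, ← hab, smul_inv_smul]
          exact mul_inv_eq_one.mp (free _ _ h1)
        · rintro ⟨x, t, ht⟩
          refine ⟨t, ?_⟩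
          simp only [Subtype.mk.injEq]
          rw [← ht, inv_smul_smul]
      have hT0 : (Nat.card T : ℂ) ≠ 0 := by
        have h1 : 0 < Nat.card {x : X // ∃ t : T, t • x = x₀} :=
          Nat.card_pos_iff.mpr ⟨⟨⟨x₀, 1, one_smul _ _⟩⟩, inferInstance⟩
        rw [hsz x₀] at h1
        exact_mod_cast h1.ne'
      have heq : (∑ x : X, f.1 x • del lam free x : E X lam) = (Nat.card T : ℂ) • f := by
        apply Subtype.ext
        funext y
        rw [hev y, hsz y]
        rfl
      rw [heq] at hs
      exact (Submodule.smul_mem_iff _ hT0).mp hs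

end

theorem ml : GL4.ML := by
  intro G T X _ _ _ _ _ _ _ _ _ lam free tr mac hne
  letI := Fintype.ofFinite G
  letI := Fintype.ofFinite X
  have hirr := irr (G := G) lam free tr mac
  haveI : FiniteDimensional ℂ (E X lam) := inferInstance
  refine ⟨(rho (G := G) (X := X) lam).character, ⟨E X lam, inferInstance, inferInstance,
    inferInstance, rho lam, hirr, rfl⟩, ?_, ?_⟩
  · intro hchi
    obtain ⟨x, g, s, hg, hs⟩ := hne
    letI : Invertible (Nat.card G : ℂ) := invertibleOfNonzero (by
      exact_mod_cast (Nat.card_pos (α := G)).ne')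
    have h1 := Representation.card_inv_mul_sum_char_eq_finrank (rho (G := G) (X := X) lam)
    have h2 : finrank ℂ (E X lam) = 1 := by
      have := Representation.char_one (rho (G := G) (X := X) lam)
      rw [hchi] at this
      simp only [Pi.one_apply] at this
      exact_mod_cast this.symm
    rw [hchi] at h1
    have h3 : finrank ℂ (rho (G := G) (X := X) lam).invariants = 1 := by
      have h4 : (Nat.card G : ℂ)⁻¹ * ∑ g : G, (1 : G → ℂ) g = 1 := by
        simp only [Pi.one_apply, Finset.sum_const, Finset.card_univ, nsmul_eq_mul, mul_one]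
        rw [← Nat.card_eq_fintype_card]
        exact inv_mul_cancel₀ (by exact_mod_cast (Nat.card_pos (α := G)).ne')
      rw [h4] at h1
      exact_mod_cast h1.symm
    have h5 : (rho (G := G) (X := X) lam).invariants = ⊤ :=
      Submodule.eq_top_of_finrank_eq (by rw [h3, h2])
    have h6 : del lam free x ∈ (rho (G := G) (X := X) lam).invariants := by
      rw [h5]; exact Submodule.mem_top
    have h7 := (Representation.mem_invariants _ _).mp h6 g⁻¹
    have h8 : (rho lam g⁻¹ (del lam free x) : E X lam).1 x = (del lam free x).1 x := by rw [h7]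
    rw [rho_apply, inv_inv, hg, del_apply, del_apply, cf_smul lam free, cf_self lam free] at h8
    exact hs (Units.ext h8)
  · intro K hK x
    by_contra hc
    push Not at hc
    apply hK
    letI : Fintype K := Fintype.ofFinite K
    letI : Invertible (Nat.card K : ℂ) := invertibleOfNonzero (by
      exact_mod_cast (Nat.card_pos (α := K)).ne')
    let r : Representation ℂ K (E X lam) := (rho (G := G) (X := X) lam).comp K.subtype
    have h1 := Representation.card_inv_mul_sum_char_eq_finrank r
    have h2 : GL4.ip K (rho (G := G) (X := X) lam).character 1 = finrank ℂ r.invariants := by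
      rw [← h1]
      unfold GL4.ip
      rw [finsum_eq_sum_of_fintype]
      congr 1
      apply Finset.sum_congr rfl
      intro k _
      simp only [Pi.one_apply, map_one, mul_one]
      rfl
    unfold GL4.Marks
    rw [h2]
    have h3 : 0 < finrank ℂ r.invariants := by
      refine (Module.finrank_pos_iff_exists_ne_zero (R := ℂ) (M := r.invariants)).mpr ?_
      let v : E X lam := ∑ k : K, r k (del lam free x)
      have hv : v ∈ r.invariants := by
        rw [Representation.mem_invariants]
        intro k
        show r k (∑ k' : K, r k' (del lam free x)) = _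
        rw [map_sum]
        refine Eq.trans ?_ (Equiv.sum_comp (Equiv.mulLeft k) (fun k' => r k' (del lam free x)))
        apply Finset.sum_congr rfl
        intro k' _
        simp only [Equiv.coe_mulLeft, map_mul]
        rfl
      refine ⟨⟨v, hv⟩, ?_⟩
      intro h0
      have h4 : v = 0 := congrArg Subtype.val h0
      have h5 : v.1 x = (Finset.univ.filter
          (fun k : K => ∃ t : T, t • x = (k : G)⁻¹ • x)).card := by
        show ((∑ k : K, r k (del lam free x) : E X lam) : X → ℂ) x = _
        rw [Submodule.coe_sum, Finset.sum_apply]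
        have : ∀ k : K, ((r k (del lam free x) : E X lam) : X → ℂ) x
            = if (∃ t : T, t • x = (k : G)⁻¹ • x) then 1 else 0 := by
          intro k
          show cf lam x ((k : G)⁻¹ • x) = _
          split_ifs with h
          · obtain ⟨t, ht⟩ := h
            rw [← ht, cf_smul lam free]
            have := hc ((k : G)⁻¹) (K.inv_mem k.2) t ht.symm
            rw [this]; simp
          · rw [cf_zero lam x _ h]
        rw [Finset.sum_congr rfl (fun k _ => this k), Finset.sum_boole]
      rw [h4] at h5
      have h6 : 0 < (Finset.univ.filter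
          (fun k : K => ∃ t : T, t • x = (k : G)⁻¹ • x)).card :=
        Finset.card_pos.mpr ⟨1, by
          simp only [Finset.mem_filter, Finset.mem_univ, true_and]
          exact ⟨1, by simp⟩⟩
      have h7 : ((Finset.univ.filter
          (fun k : K => ∃ t : T, t • x = (k : G)⁻¹ • x)).card : ℂ) = 0 := by
        rw [← h5]; rfl
      rw [Nat.cast_eq_zero] at h7
      omega
    exact_mod_cast h3

end Pool.Agent.Helper15.GL4ML
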